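import Mathlib

/-!
Quasi-geometric flat bundles: reductions.
-/

namespace Pool.Agent.U644.QG

universe u v w

/-- Smooth Deligne–Mumford stacks `Y` over the algebraic numbers, complements of normal crossing
divisors in smooth proper ones, and the flat bundles on them. -/
structure FlatTheory where
  /-- the spaces -/
  Sp : Type u
  /-- the dimension -/
  dim : Sp → ℕ
  /-- flat bundles with regular singularities -/
  Bun : Sp → Type v
  /-- semisimple -/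
  ss : ∀ {Y : Sp}, Bun Y → Prop
  /-- irreducible -/
  irr : ∀ {Y : Sp}, Bun Y → Prop
  /-- quasi-geometric -/
  qg : ∀ {Y : Sp}, Bun Y → Prop
  /-- geometric -/
  geo : ∀ {Y : Sp}, Bun Y → Prop
  /-- unipotent local monodromy -/
  uni : ∀ {Y : Sp}, Bun Y → Prop
  /-- `Sub E F`: `E` is a subquotient of `F` -/
  Sub : ∀ {Y : Sp}, Bun Y → Bun Y → Prop
  /-- irreducible constituents -/
  comp : ∀ {Y : Sp}, Bun Y → Set (Bun Y)
  /-- dense open immersions `U → Y` -/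
  Op : Sp → Sp → Type w
  /-- restriction -/
  res : ∀ {U Y : Sp}, Op U Y → Bun Y → Bun U
  /-- finite étale morphisms -/
  Et : Sp → Sp → Type w
  /-- pull-back -/
  pull : ∀ {Y' Y : Sp}, Et Y' Y → Bun Y → Bun Y'
  /-- direct image -/
  push : ∀ {Y' Y : Sp}, Et Y' Y → Bun Y' → Bun Y
  /-- dense open subset of an affine space -/
  AffOpen : Sp → Prop
  /-- the projective line without three points -/
  P3 : Sp
  /-- the moduli stack of elliptic curves -/
  M11 : Sp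
  /-- the modular curve `Y(2N)` (for `N = 0` read `Y(2)`) -/
  mod : ℕ → Sp
  /-- the product with the affine line -/
  cyl : Sp → Sp
  /-- pull-back to the product with the affine line -/
  pr : ∀ {Y : Sp}, Bun Y → Bun (cyl Y)
  irr_ss : ∀ {Y : Sp} (E : Bun Y), irr E → ss E
  geo_sub : ∀ {Y : Sp} (E F : Bun Y), Sub E F → geo F → geo E
  comp_irr : ∀ {Y : Sp} (E C : Bun Y), C ∈ comp E → irr C
  comp_qg : ∀ {Y : Sp} (E C : Bun Y), ss E → qg E → C ∈ comp E → qg C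
  comp_uni : ∀ {Y : Sp} (E C : Bun Y), uni E → C ∈ comp E → uni C
  geo_of_comp : ∀ {Y : Sp} (E : Bun Y), ss E → (∀ C ∈ comp E, geo C) → geo E
  ss_res : ∀ {U Y : Sp} (i : Op U Y) (E : Bun Y), ss E → ss (res i E)
  qg_res : ∀ {U Y : Sp} (i : Op U Y) (E : Bun Y), qg E → qg (res i E)
  geo_res : ∀ {U Y : Sp} (i : Op U Y) (E : Bun Y), geo (res i E) → geo E
  ss_pull : ∀ {Y' Y : Sp} (f : Et Y' Y) (E : Bun Y), ss E → ss (pull f E)
  qg_pull : ∀ {Y' Y : Sp} (f : Et Y' Y) (E : Bun Y), qg E → qg (pull f E)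
  geo_pull : ∀ {Y' Y : Sp} (f : Et Y' Y) (E : Bun Y), geo E → geo (pull f E)
  ss_push : ∀ {Y' Y : Sp} (f : Et Y' Y) (E : Bun Y'), ss E → ss (push f E)
  qg_push : ∀ {Y' Y : Sp} (f : Et Y' Y) (E : Bun Y'), qg E → qg (push f E)
  geo_push : ∀ {Y' Y : Sp} (f : Et Y' Y) (E : Bun Y'), geo E → geo (push f E)
  sub_push_pull : ∀ {Y' Y : Sp} (f : Et Y' Y) (E : Bun Y), Sub E (push f (pull f E))
  sub_pull_push : ∀ {Y' Y : Sp} (f : Et Y' Y) (E : Bun Y'), Sub E (pull f (push f E))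
  noether : ∀ Y : Sp, ∃ U U' V : Sp, Nonempty (Op U Y) ∧ Nonempty (Et U' U) ∧
    Nonempty (Et U' V) ∧ AffOpen V ∧ dim V = dim Y
  belyi : ∀ Y : Sp, dim Y = 1 → ∃ U U' : Sp, Nonempty (Op U Y) ∧ Nonempty (Et U' U) ∧
    Nonempty (Et U' P3)
  dim_P3 : dim P3 = 1
  dim_M11 : dim M11 = 1
  dim_mod : ∀ N, dim (mod N) = 1
  legendre : Nonempty (Et P3 M11)
  modular : ∀ E : Bun P3, qg E → ∃ (N : ℕ) (f : Et (mod N) P3), uni (pull f E)
  dim_cyl : ∀ Y, dim (cyl Y) = dim Y + 1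
  ss_pr : ∀ {Y : Sp} (E : Bun Y), ss E → ss (pr E)
  qg_pr : ∀ {Y : Sp} (E : Bun Y), qg E → qg (pr E)
  geo_pr : ∀ {Y : Sp} (E : Bun Y), geo (pr E) → geo E

variable (T : FlatTheory.{u, v, w})

/-- Q1 for the space `Y`. -/
def FlatTheory.QAt (Y : T.Sp) : Prop := ∀ E : T.Bun Y, T.ss E → T.qg E → T.geo E

/-- Q1 for all spaces of dimension `n`. -/
def FlatTheory.Q (n : ℕ) : Prop := ∀ Y : T.Sp, T.dim Y = n → T.QAt Y

/-- Q1 for irreducible bundles on `Y`. -/
def FlatTheory.QIrr (Y : T.Sp) : Prop := ∀ E : T.Bun Y, T.irr E → T.qg E → T.geo E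

/-- Q1 for irreducible bundles on `Y` with unipotent local monodromy. -/
def FlatTheory.QUni (Y : T.Sp) : Prop := ∀ E : T.Bun Y, T.irr E → T.qg E → T.uni E → T.geo E

variable {T}

lemma qAt_iff_irr (Y : T.Sp) : T.QAt Y ↔ T.QIrr Y := by
  constructor
  · intro h E h1 h2
    exact h E (T.irr_ss E h1) h2
  · intro h E h1 h2
    exact T.geo_of_comp E h1 fun C hC => h C (T.comp_irr E C hC) (T.comp_qg E C h1 h2 hC)

/-- Going down: from the base to a covering. -/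
lemma qAt_of_base {Y' Y : T.Sp} (f : T.Et Y' Y) (h : T.QAt Y) : T.QAt Y' := by
  intro E h1 h2
  have h3 := h (T.push f E) (T.ss_push f E h1) (T.qg_push f E h2)
  exact T.geo_sub _ _ (T.sub_pull_push f E) (T.geo_pull f _ h3)

/-- Going up: from a covering to the base. -/
lemma qAt_of_cover {Y' Y : T.Sp} (f : T.Et Y' Y) (h : T.QAt Y') : T.QAt Y := by
  intro E h1 h2
  have h3 := h (T.pull f E) (T.ss_pull f E h1) (T.qg_pull f E h2)
  exact T.geo_sub _ _ (T.sub_push_pull f E) (T.geo_push f _ h3)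

lemma qAt_of_open {U Y : T.Sp} (i : T.Op U Y) (h : T.QAt U) : T.QAt Y := by
  intro E h1 h2
  exact T.geo_res i E (h _ (T.ss_res i E h1) (T.qg_res i E h2))

theorem q_iff_affOpen (n : ℕ) :
    T.Q n ↔ ∀ V : T.Sp, T.AffOpen V → T.dim V = n → T.QIrr V := by
  constructor
  · intro h V _ hV
    exact (qAt_iff_irr V).1 (h V hV)
  · intro h Y hY
    obtain ⟨U, U', V, ⟨i⟩, ⟨f⟩, ⟨g⟩, hV, hdim⟩ := T.noether Y
    have h1 : T.QAt V := (qAt_iff_irr V).2 (h V hV (hdim.trans hY))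
    exact qAt_of_open i (qAt_of_cover f (qAt_of_base g h1))

theorem q_one_iff_P3 : T.Q 1 ↔ T.QIrr T.P3 := by
  constructor
  · intro h
    exact (qAt_iff_irr _).1 (h T.P3 T.dim_P3)
  · intro h Y hY
    obtain ⟨U, U', ⟨i⟩, ⟨f⟩, ⟨g⟩⟩ := T.belyi Y hY
    have h1 : T.QAt T.P3 := (qAt_iff_irr _).2 h
    exact qAt_of_open i (qAt_of_cover f (qAt_of_base g h1))

theorem q_one_iff_M11 : T.Q 1 ↔ T.QIrr T.M11 := by
  constructor
  · intro h
    exact (qAt_iff_irr _).1 (h T.M11 T.dim_M11)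
  · intro h
    obtain ⟨f⟩ := T.legendre
    exact q_one_iff_P3.2 ((qAt_iff_irr _).1 (qAt_of_base f ((qAt_iff_irr _).2 h)))

theorem q_one_iff_modular : T.Q 1 ↔ ∀ N : ℕ, T.QUni (T.mod N) := by
  constructor
  · intro h N E h1 h2 _
    exact (qAt_iff_irr _).1 (h (T.mod N) (T.dim_mod N)) E h1 h2
  · intro h
    rw [q_one_iff_P3]
    intro E h1 h2
    obtain ⟨N, f, hf⟩ := T.modular E h2
    have hss : T.ss (T.pull f E) := T.ss_pull f E (T.irr_ss E h1)
    have hqg : T.qg (T.pull f E) := T.qg_pull f E h2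
    have h3 : T.geo (T.pull f E) := by
      refine T.geo_of_comp _ hss fun C hC => ?_
      exact h N C (T.comp_irr _ C hC) (T.comp_qg _ C hss hqg hC) (T.comp_uni _ C hf hC)
    exact T.geo_sub _ _ (T.sub_push_pull f E) (T.geo_push f _ h3)

theorem q_succ (n : ℕ) (h : T.Q (n + 1)) : T.Q n := by
  intro Y hY E h1 h2
  exact T.geo_pr E (h (T.cyl Y) (by rw [T.dim_cyl, hY]) (T.pr E) (T.ss_pr E h1) (T.qg_pr E h2))

theorem q_of_le {m n : ℕ} (hmn : m ≤ n) (h : T.Q n) : T.Q m := by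
  induction hmn with
  | refl => exact h
  | step _ ih => exact ih (q_succ _ h)

theorem q_all_iff : (∀ n, T.Q n) ↔ ∀ n, ∃ m, n ≤ m ∧ T.Q m := by
  constructor
  · intro h n
    exact ⟨n, le_rfl, h n⟩
  · intro h n
    obtain ⟨m, hm, h1⟩ := h n
    exact q_of_le hm h1

end Pool.Agent.U644.QG
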